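import Mathlib
import Pool.Agent.Lib.MP_65eb6b_al.ECCat

set_option autoImplicit false

open CategoryTheory Pool.Agent.Lib.MP_65eb6b_al.EC

universe u

namespace Pool.Agent.Results.MP_65eb6b_al.AddClasses

/-- If `Add G` is a covering class, then it is closed under direct limits, and the canonical map
from the direct sum of the terms of a direct system in `Add G` onto its direct limit splits. -/
theorem result (R : Type u) [Ring R] (G : ModuleCat.{u} R) (hcov : IsCovering (InAdd G))
    (J : Type u) [Preorder J] [IsDirected J (· ≤ ·)] [Nonempty J] (F : J ⥤ ModuleCat.{u} R)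
    (hF : ∀ j, InAdd G (F.obj j)) (c : Limits.Cocone F) (hc : Nonempty (Limits.IsColimit c)) :
    InAdd G c.pt ∧
      ∃ s : c.pt ⟶ ∐ F.obj, s ≫ Limits.Sigma.desc (fun j => c.ι.app j) = 𝟙 c.pt :=
  add_main hcov F hF c hc.some

end Pool.Agent.Results.MP_65eb6b_al.AddClasses
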