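import Mathlib
import Pool.Agent.Lib.MP_65eb6b_al.Definable

set_option autoImplicit false

open Cardinal CategoryTheory Pool.Agent.Lib.MP_65eb6b_al

universe u

namespace Pool.Agent.Results.MP_65eb6b_al.Definable

/-- There is an inaccessible cardinal `κ` such that Enochs' conjecture fails for the rings and
modules of size less than `κ`, for a class defined by a lifting property against one map. -/
theorem result :
    ∃ κ : Cardinal.{u + 1}, κ.IsInaccessible ∧
      ∃ (R : Type (u + 1)) (_ : Ring R) (Y S : ModuleCat.{u + 1} R) (π : Y ⟶ S)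
        (C : ModuleCat.{u + 1} R → Prop),
        Countable R ∧ Countable Y ∧ Countable S ∧
        (∀ A : ModuleCat.{u + 1} R,
          C A ↔ #A < κ ∧ ∀ φ : A ⟶ S, ∃ ψ : A ⟶ Y, ψ ≫ π = φ) ∧
        (∀ A B : ModuleCat.{u + 1} R, Nonempty (A ≅ B) → C A → C B) ∧
        (∀ M : ModuleCat.{u + 1} R, #M < κ →
          ∃ (X : ModuleCat.{u + 1} R) (f : X ⟶ M), IsCover C f) ∧
        ∃ (J : Type (u + 1)) (_ : PartialOrder J) (_ : IsDirected J (· ≤ ·)) (_ : Nonempty J)
          (F : J ⥤ ModuleCat.{u + 1} R) (c : Limits.Cocone F),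
          Countable J ∧ (∀ j, C (F.obj j)) ∧ Nonempty (Limits.IsColimit c) ∧
            #c.pt < κ ∧ ¬ C c.pt :=
  definable

end Pool.Agent.Results.MP_65eb6b_al.Definable
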