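import Mathlib
import Pool.Agent.Lib.MP_65eb6b_al.ECFilt

set_option autoImplicit false

open CategoryTheory Pool.Agent.Lib.MP_65eb6b_al.EC

universe u

namespace Pool.Agent.Results.MP_65eb6b_al.FilteredClasses

/-- Let `S` be a set of modules and `C` a class lying between the `S`-filtered modules and their
direct summands. If `C` is covering, then it is closed under direct limits. -/
theorem result (R : Type u) [Ring R] (ι : Type u) (S : ι → ModuleCat.{u} R)
    (C : ModuleCat.{u} R → Prop) (hiso : ∀ X Y : ModuleCat.{u} R, Nonempty (X ≅ Y) → C X → C Y)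
    (h₁ : ∀ X, IsFiltered S X → C X) (h₂ : ∀ X, C X → ∃ P, IsFiltered S P ∧ IsSummand X P)
    (hcov : IsCovering C)
    (J : Type u) [Preorder J] [IsDirected J (· ≤ ·)] [Nonempty J] (F : J ⥤ ModuleCat.{u} R)
    (hF : ∀ j, C (F.obj j)) (c : Limits.Cocone F) (hc : Nonempty (Limits.IsColimit c)) :
    C c.pt :=
  filt_main hiso h₁ h₂ hcov F hF c hc.some

end Pool.Agent.Results.MP_65eb6b_al.FilteredClasses
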