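import Mathlib
import Pool.Agent.Lib.MP_65eb6b_al.Main

set_option autoImplicit false

open Cardinal CategoryTheory Pool.Agent.Lib.MP_65eb6b_al

universe u

namespace Pool.Agent.Results.MP_65eb6b_al.NonMeasurable

/-- For every infinite cardinal `μ` there are a ring `R` of size `μ` and an isomorphism-closed
class `C` of left `R`-modules that is not closed under direct limits, such that every module `M`
has a `C`-cover unless some measurable cardinal lies in the interval `(μ, #M]`. -/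
theorem result (μ : Cardinal.{u}) (hμ : ℵ₀ ≤ μ) :
    ∃ (R : Type u) (_ : Ring R) (C : ModuleCat.{u} R → Prop), #R = μ ∧
      (∀ X Y : ModuleCat.{u} R, Nonempty (X ≅ Y) → C X → C Y) ∧
      (∀ M : ModuleCat.{u} R, (¬ ∃ κ : Cardinal.{u}, IsMeasurable κ ∧ μ < κ ∧ κ ≤ #M) →
        ∃ (X : ModuleCat.{u} R) (f : X ⟶ M), IsCover C f ∧ #X ≤ 2 ^ (μ * 2 ^ #M)) ∧
      ∃ (J : Type u) (_ : PartialOrder J) (_ : IsDirected J (· ≤ ·)) (_ : Nonempty J)
        (F : J ⥤ ModuleCat.{u} R) (c : Limits.Cocone F),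
        #J ≤ μ ∧ (∀ j, C (F.obj j) ∧ #(F.obj j) ≤ μ) ∧ Nonempty (Limits.IsColimit c) ∧
          ¬ C c.pt := by
  classical
  obtain ⟨I, rfl⟩ : ∃ I : Type u, #I = μ := ⟨μ.out, mk_out μ⟩
  have : Infinite I := Cardinal.infinite_iff.2 hμ
  let o : Bs I := (Classical.arbitrary I, true, 0)
  exact ⟨Rg I, inferInstance, Cls o, mk_Rg, cls_iso o, exists_isCover o, Finset (Gen I),
    inferInstance, inferInstance, inferInstance, sys I, cocone I, mk_index.le,
    fun j => ⟨cls_sys o j, mk_sys j⟩, ⟨isColimit I⟩, not_cls_pt o⟩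

end Pool.Agent.Results.MP_65eb6b_al.NonMeasurable
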